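import Pool.Agent.H56.CN.UST

/-!
# ORB: unfolding over the classes of forms
-/

set_option autoImplicit false

open MeasureTheory Set Filter
open scoped Real Matrix MatrixGroups

namespace Pool.Agent.H56.CN

open Pool.Agent.H31.CN

/-- the substitution as a bijection of the vectors -/
def gvE (hACT : T_ACT) (g : SL(2, ℤ)) : (ℤ × ℤ) ≃ (ℤ × ℤ) where
  toFun := gv g
  invFun := gv g⁻¹
  left_inv v := by
    rw [← (hACT (0, 0, 0) g⁻¹ g v).2.2.2.2.1, inv_mul_cancel]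
    simp [gv]
  right_inv v := by
    rw [← (hACT (0, 0, 0) g g⁻¹ v).2.2.2.2.1, mul_inv_cancel]
    simp [gv]

theorem gv_zero (g : SL(2, ℤ)) : gv g 0 = 0 := by
  simp [gv]

theorem gv_inv (hACT : T_ACT) (g : SL(2, ℤ)) (v : ℤ × ℤ) : gv g (gv g⁻¹ v) = v :=
  (gvE hACT g).right_inv v

theorem inv_gv (hACT : T_ACT) (g : SL(2, ℤ)) (v : ℤ × ℤ) : gv g⁻¹ (gv g v) = v :=
  (gvE hACT g).left_inv v

/-- the condition on an index and a matrix -/
def P (Δ : ℕ) (R : QF) (x : J) (g : SL(2, ℤ)) : Prop :=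
  (1 ≤ x.1.1 ∧ cd Δ x) ∧ act (fr Δ x) g = R

open scoped Classical in
/-- the sum of the weights over the indices in the class of `R` -/
noncomputable def Wsum (Δ : ℕ) (w : QF → ℤ × ℤ → ℝ) (R : QF) : ℝ :=
  ∑' x : J, if ∃ g, P Δ R x g then w (fr Δ x) ((x.1.1 : ℤ), 0) else 0

section

variable {Δ : ℕ} {w : QF → ℤ × ℤ → ℝ}

/-- the bijection between the pairs and the nonzero vectors -/
noncomputable def psi (hACT : T_ACT) (R : QF) (y : {y : J × SL(2, ℤ) // P Δ R y.1 y.2}) :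
    {v : ℤ × ℤ // v ≠ 0} :=
  ⟨gv y.1.2⁻¹ ((y.1.1.1.1 : ℤ), 0), by
    intro h
    have h1 := gv_inv hACT y.1.2 ((y.1.1.1.1 : ℤ), 0)
    rw [h, gv_zero] at h1
    have h2 := congrArg Prod.fst h1
    have h3 := y.2.1.1
    simp only [Prod.fst_zero] at h2
    omega⟩

theorem psi_bij (hACT : T_ACT) (hΔ : 0 < Δ) {R : QF} (hR : R ∈ FD Δ) :
    Function.Bijective (psi (Δ := Δ) hACT R) := by
  constructor
  · intro y y' h
    have h1 : gv y.1.2⁻¹ ((y.1.1.1.1 : ℤ), 0) = gv y'.1.2⁻¹ ((y'.1.1.1.1 : ℤ), 0) :=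
      congrArg Subtype.val h
    obtain ⟨e1, e2, e3, e4⟩ := par_unique (v := gv y.1.2⁻¹ ((y.1.1.1.1 : ℤ), 0)) hACT y.2.1.1
      y'.2.1.1 (cd_pos y.2.1.2) y.2.1.2.1 y'.2.1.2.1 y.2.2 y'.2.2 (gv_inv hACT _ _)
      (by rw [h1]; exact gv_inv hACT _ _)
    exact Subtype.ext (Prod.ext (Prod.ext (Prod.ext e1 e2) e3) e4)
  · rintro ⟨v, hv⟩
    obtain ⟨e, A, B, g, h1, h2, h3, h4, h5, h6⟩ := par_exists hACT hΔ hR hv
    refine ⟨⟨(((e, A), B), g), ⟨h1, h3, h4⟩, h5⟩, Subtype.ext ?_⟩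
    show gv g⁻¹ ((e : ℤ), 0) = v
    rw [← h6, inv_gv hACT]

theorem act_inv (hACT : T_ACT) {Q R : QF} {g : SL(2, ℤ)} (h : act Q g = R) : act R g⁻¹ = Q := by
  rw [← h, (hACT Q g g⁻¹ 0).2.2.2.1, mul_inv_cancel, (hACT Q 1 1 0).2.2.1]

/-- the number of the matrices -/
theorem card_G (hACT : T_ACT) (R : QF) (x : J) (h : ∃ g, P Δ R x g) :
    Nat.card {g // P Δ R x g} = Nat.card {g : SL(2, ℤ) // act R g = R} := by
  obtain ⟨g₀, h0, h1⟩ := h
  refine Nat.card_congr ⟨fun g => ⟨g₀⁻¹ * g.1, ?_⟩, fun g => ⟨g₀ * g.1, h0, ?_⟩, fun g => ?_,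
    fun g => ?_⟩
  · rw [← (hACT R g₀⁻¹ g.1 0).2.2.2.1, act_inv hACT h1]
    exact g.2.2
  · rw [← (hACT _ g₀ g.1 0).2.2.2.1, h1]
    exact g.2
  · exact Subtype.ext (by simp)
  · exact Subtype.ext (by simp)

open scoped Classical in
/-- the unfolding of the sum over the vectors -/
theorem unfold_Z (hACT : T_ACT) (hΔ : 0 < Δ) {R : QF} (hR : R ∈ FD Δ) (h0 : w R 0 = 0)
    (hinv : ∀ Q ∈ FD Δ, ∀ g v, w (act Q g) v = w Q (gv g v))
    (hs : Summable fun v => w R v) :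
    ∑' v, w R v = (Nat.card {g : SL(2, ℤ) // act R g = R} : ℝ) * Wsum Δ w R := by
  set e := Equiv.ofBijective _ (psi_bij hACT hΔ hR) with he
  have hs1 : Summable fun v : {v : ℤ × ℤ // v ≠ 0} => w R v.1 := hs.subtype _
  have hval : ∀ y : {y : J × SL(2, ℤ) // P Δ R y.1 y.2},
      w R (e y).1 = w (fr Δ y.1.1) ((y.1.1.1.1 : ℤ), 0) := by
    intro y
    have h1 : (e y).1 = gv y.1.2⁻¹ ((y.1.1.1.1 : ℤ), 0) := rfl
    rw [h1]
    have h2 := hinv (fr Δ y.1.1) (fr_mem y.2.1.2) y.1.2 (gv y.1.2⁻¹ ((y.1.1.1.1 : ℤ), 0))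
    rw [y.2.2, gv_inv hACT] at h2
    exact h2
  have e1 : ∑' v, w R v = ∑' v : {v : ℤ × ℤ // v ≠ 0}, w R v.1 := by
    refine (tsum_subtype_eq_of_support_subset (s := {v : ℤ × ℤ | v ≠ 0}) ?_).symm
    intro v hv hv0
    rw [hv0] at hv
    exact hv h0
  have hs2 : Summable fun y : {y : J × SL(2, ℤ) // P Δ R y.1 y.2} =>
      w (fr Δ y.1.1) ((y.1.1.1.1 : ℤ), 0) := by
    have := (e.summable_iff (f := fun v : {v : ℤ × ℤ // v ≠ 0} => w R v.1)).2 hs1
    exact this.congr fun y => hval y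
  set e' : {y : J × SL(2, ℤ) // P Δ R y.1 y.2} ≃ Σ x : J, {g // P Δ R x g} :=
    Equiv.subtypeProdEquivSigmaSubtype (P Δ R) with he'
  have hs3 : Summable fun z : Σ x : J, {g // P Δ R x g} => w (fr Δ z.1) ((z.1.1.1 : ℤ), 0) := by
    have := (e'.symm.summable_iff (f := fun y : {y : J × SL(2, ℤ) // P Δ R y.1 y.2} =>
      w (fr Δ y.1.1) ((y.1.1.1.1 : ℤ), 0))).2 hs2
    exact this
  have e2 : ∑' v : {v : ℤ × ℤ // v ≠ 0}, w R v.1 =
      ∑' y : {y : J × SL(2, ℤ) // P Δ R y.1 y.2}, w (fr Δ y.1.1) ((y.1.1.1.1 : ℤ), 0) := by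
    rw [← e.tsum_eq]
    exact tsum_congr hval
  have e3 : ∑' y : {y : J × SL(2, ℤ) // P Δ R y.1 y.2}, w (fr Δ y.1.1) ((y.1.1.1.1 : ℤ), 0) =
      ∑' z : Σ x : J, {g // P Δ R x g}, w (fr Δ z.1) ((z.1.1.1 : ℤ), 0) := by
    rw [← e'.symm.tsum_eq]
    rfl
  rw [e1, e2, e3, hs3.tsum_sigma, Wsum, ← tsum_mul_left]
  refine tsum_congr fun x => ?_
  have e4 : ∑' _c : {g // P Δ R x g}, w (fr Δ x) ((x.1.1 : ℤ), 0) =
      Nat.card {g // P Δ R x g} • w (fr Δ x) ((x.1.1 : ℤ), 0) := tsum_const _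
  refine e4.trans ?_
  rw [nsmul_eq_mul]
  split_ifs with h
  · rw [card_G hACT R x h]
  · have : IsEmpty {g // P Δ R x g} := ⟨fun g => h ⟨g.1, g.2⟩⟩
    rw [Nat.card_of_isEmpty]
    simp

/-- invariance -/
theorem Z_inv (hACT : T_ACT) (hinv : ∀ Q ∈ FD Δ, ∀ g v, w (act Q g) v = w Q (gv g v))
    {Q : QF} (hQ : Q ∈ FD Δ) (g : SL(2, ℤ)) : ∑' v, w (act Q g) v = ∑' v, w Q v := by
  rw [← (gvE hACT g).tsum_eq (fun v => w Q v)]
  exact tsum_congr fun v => hinv Q hQ g v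

/-- the class of a form -/
def orb (R : QF) : Set QF := {R' | ∃ g, act R g = R'}

theorem orb_eq_iff (hACT : T_ACT) (Q R : QF) : orb Q = orb R ↔ ∃ g, act Q g = R := by
  constructor
  · intro h
    have h1 : R ∈ orb R := ⟨1, (hACT R 1 1 0).2.2.1⟩
    rw [← h] at h1
    exact h1
  · rintro ⟨g, hg⟩
    ext R'
    constructor
    · rintro ⟨k, hk⟩
      refine ⟨g⁻¹ * k, ?_⟩
      rw [← (hACT R g⁻¹ k 0).2.2.2.1, act_inv hACT hg, hk]
    · rintro ⟨k, hk⟩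
      refine ⟨g * k, ?_⟩
      rw [← (hACT Q g k 0).2.2.2.1, hg, hk]

open scoped Classical in
/-- the sum over a class -/
theorem fibre_sum (hACT : T_ACT) {R : QF} (hw0 : ∀ Q ∈ FD Δ, w Q 0 = 0)
    (hinv : ∀ Q ∈ FD Δ, ∀ g v, w (act Q g) v = w Q (gv g v)) :
    ∑' x : {x : J // orb (fr Δ x) = orb R}, ust Δ (fun R e => w R ((e : ℤ), 0))
      (fun R => ∑' v, w R v) x.1 = (∑' v, w R v) * Wsum Δ w R := by
  have h1 : ∑' x : {x : J // orb (fr Δ x) = orb R}, ust Δ (fun R e => w R ((e : ℤ), 0))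
      (fun R => ∑' v, w R v) x.1 = ∑' x : J, {x : J | orb (fr Δ x) = orb R}.indicator
        (ust Δ (fun R e => w R ((e : ℤ), 0)) (fun R => ∑' v, w R v)) x :=
    tsum_subtype {x : J | orb (fr Δ x) = orb R} _
  rw [h1, Wsum, ← tsum_mul_left]
  refine tsum_congr fun x => ?_
  by_cases hc : cd Δ x
  · by_cases ho : orb (fr Δ x) = orb R
    · rw [indicator_of_mem (show x ∈ {x : J | orb (fr Δ x) = orb R} from ho), ust, if_pos hc]
      obtain ⟨g, hg⟩ := (orb_eq_iff hACT _ _).1 ho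
      have h2 : ∑' v, w (fr Δ x) v = ∑' v, w R v := by
        rw [← hg, Z_inv hACT hinv (fr_mem hc)]
      rcases Nat.eq_zero_or_pos x.1.1 with he | he
      · rw [if_neg]
        · simp only [he, Nat.cast_zero]
          have h3 : w (fr Δ x) (0, 0) = 0 := hw0 _ (fr_mem hc)
          rw [h3, zero_mul, mul_zero]
        · rintro ⟨g', h3, -⟩
          omega
      · rw [if_pos ⟨g, ⟨he, hc⟩, hg⟩, h2, mul_comm]
    · rw [indicator_of_notMem (show x ∉ {x : J | orb (fr Δ x) = orb R} from ho), if_neg, mul_zero]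
      rintro ⟨g, -, hg⟩
      exact ho ((orb_eq_iff hACT _ _).2 ⟨g, hg⟩)
  · rw [if_neg (fun ⟨g, h3, _⟩ => hc h3.2), mul_zero]
    apply indicator_apply_eq_zero.2
    intro _
    unfold ust
    rw [if_neg hc]

end

theorem act_neg_one (Q : QF) : act Q (-1) = Q := by
  unfold act val
  ext <;> simp

theorem card_two (Q : QF) (hACT : T_ACT) (h : ∀ g, act Q g = Q → g = 1 ∨ g = -1) :
    Nat.card {g : SL(2, ℤ) // act Q g = Q} = 2 := by
  rw [Nat.card_eq_two_iff]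
  refine ⟨⟨1, (hACT Q 1 1 0).2.2.1⟩, ⟨-1, act_neg_one Q⟩, ?_, ?_⟩
  · intro h1
    have h2 : (1 : SL(2, ℤ)) = -1 := congrArg Subtype.val h1
    have h3 := congrArg (fun g : SL(2, ℤ) => g 0 0) h2
    simp at h3
  · ext g
    simp only [mem_insert_iff, mem_singleton_iff, mem_univ, iff_true]
    rcases h g.1 g.2 with h1 | h1
    · exact Or.inl (Subtype.ext h1)
    · exact Or.inr (Subtype.ext h1)

open scoped Classical in
theorem pf_ORB (hACT : T_ACT) (hVGR : T_VGR) : T_ORB := by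
  intro Δ K c w hΔ hc hw0 hinv hbd ι _ Q hQ hQQ
  obtain ⟨K', hK'⟩ := hVGR Δ c hΔ hc
  have hval : ∀ R ∈ FD Δ, ∀ v : ℤ × ℤ, |w R v| ≤ |K| * Real.exp (-(c * val R v)) := by
    intro R hR v
    by_cases hv : v = 0
    · rw [hv, hw0 R hR, abs_zero]
      positivity
    · exact (hbd R hR v hv).trans
        (mul_le_mul_of_nonneg_right (le_abs_self K) (Real.exp_pos _).le)
  have hsum : ∀ R ∈ FD Δ, Summable fun v => w R v := fun R hR =>
    Summable.of_norm_bounded ((hK' R hR).1.mul_left |K|) fun v => hval R hR v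
  have hZ : ∀ R ∈ FD Δ, |∑' v, w R v| ≤ (|K| * K') * (1 + (R.1 : ℝ)) ^ 1 := by
    intro R hR
    have h1 : ‖∑' v, w R v‖ ≤ ∑' v : ℤ × ℤ, |K| * Real.exp (-(c * val R v)) :=
      tsum_of_norm_bounded ((hK' R hR).1.mul_left |K|).hasSum fun v => hval R hR v
    rw [tsum_mul_left] at h1
    refine h1.trans ?_
    rw [pow_one, mul_assoc]
    exact mul_le_mul_of_nonneg_left (hK' R hR).2 (abs_nonneg K)
  obtain ⟨ω, hω⟩ : ∃ ω : QF → ℕ → ℝ, ω = fun (R : QF) (e : ℕ) => w R ((e : ℤ), 0) :=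
    ⟨_, rfl⟩
  obtain ⟨Z, hZdef⟩ : ∃ Z : QF → ℝ, Z = fun R => ∑' v, w R v := ⟨_, rfl⟩
  rw [← hω, ← hZdef]
  have hust : Summable (ust Δ ω Z) := by
    refine ust_summable (K := K) (K' := |K| * K') (k := 1) hc ?_ ?_ ?_
    · intro R hR
      rw [hω]
      exact hw0 R hR
    · intro R hR e he
      rw [hω]
      have h1 := hbd R hR ((e : ℤ), 0) (by
        intro h
        have := congrArg Prod.fst h
        simp only [Prod.fst_zero] at this
        omega)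
      have h2 : ((val R ((e : ℤ), 0) : ℤ) : ℝ) = (e : ℝ) ^ 2 * R.1 := by
        unfold val
        push_cast
        ring
      rwa [h2] at h1
    · intro R hR
      rw [hZdef]
      exact hZ R hR
  rw [US_eq Δ ω Z hust]
  -- the sum over the classes
  set cl : J → Set QF := fun x => orb (fr Δ x) with hcl
  obtain ⟨a, ha⟩ : ∃ a : Set QF → ℝ, a = fun O => ∑' x : {x : J // cl x = O}, ust Δ ω Z x.1 :=
    ⟨_, rfl⟩
  have hs1 : Summable fun z : Σ O : Set QF, {x : J // cl x = O} => ust Δ ω Z z.2.1 :=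
    ((Equiv.sigmaFiberEquiv cl).summable_iff (f := ust Δ ω Z)).2 hust
  have e1 : ∑' x : J, ust Δ ω Z x = ∑' O, a O := by
    rw [← (Equiv.sigmaFiberEquiv cl).tsum_eq]
    have := hs1.tsum_sigma
    rw [ha]
    exact this
  have hsa : Summable a := by
    rw [ha]
    exact hs1.sigma
  have hfib : ∀ R ∈ FD Δ, a (orb R) = Z R * Wsum Δ w R := by
    intro R hR
    rw [ha, hZdef, hω]
    exact fibre_sum hACT hw0 hinv
  have hZW : ∀ R ∈ FD Δ, Z R = (Nat.card {g : SL(2, ℤ) // act R g = R} : ℝ) * Wsum Δ w R := by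
    intro R hR
    rw [hZdef]
    exact unfold_Z hACT hΔ hR (hw0 R hR) hinv (hsum R hR)
  have hpos : ∀ O, 0 ≤ a O := by
    intro O
    by_cases h : ∃ x : J, cd Δ x ∧ cl x = O
    · obtain ⟨x, hx, hO⟩ := h
      have hR := fr_mem hx
      rw [← hO, hcl, hfib _ hR, hZW _ hR]
      have h1 := mul_self_nonneg (Wsum Δ w (fr Δ x))
      have h2 : (0 : ℝ) ≤ Nat.card {g : SL(2, ℤ) // act (fr Δ x) g = fr Δ x} := Nat.cast_nonneg _
      nlinarith [mul_nonneg h2 h1]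
    · rw [ha]
      refine tsum_nonneg fun x => ?_
      have h1 : ¬ cd Δ x.1 := fun h2 => h ⟨x.1, h2, x.2⟩
      unfold ust
      rw [if_neg h1]
  have hinj : Function.Injective fun i => orb (Q i) := by
    intro i j hij
    obtain ⟨g, hg⟩ := (orb_eq_iff hACT _ _).1 hij
    exact (hQQ i j g hg).1
  have hterm : ∀ i, (Z (Q i)) ^ 2 = 2 * a (orb (Q i)) := by
    intro i
    rw [hfib _ (hQ i), hZW _ (hQ i), card_two (Q i) hACT fun g hg => (hQQ i i g hg).2]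
    push_cast
    ring
  rw [e1]
  calc ∑ i, (∑' v, w (Q i) v) ^ 2 = ∑ i, 2 * a (orb (Q i)) := by
        refine Finset.sum_congr rfl fun i _ => ?_
        rw [← hterm i, hZdef]
    _ = 2 * ∑ O ∈ Finset.univ.image (fun i => orb (Q i)), a O := by
        rw [← Finset.mul_sum, Finset.sum_image fun i _ j _ h => hinj h]
    _ ≤ 2 * ∑' O, a O :=
        mul_le_mul_of_nonneg_left (hsa.sum_le_tsum _ fun O _ => hpos O) (by norm_num)

end Pool.Agent.H56.CN
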