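import Pool.Agent.H56.CN.ADJ

/-!
# ADJ: the sums
-/

set_option autoImplicit false

open MeasureTheory Set Filter
open scoped Real Matrix MatrixGroups

namespace Pool.Agent.H56.CN

open Pool.Agent.H31.CN

/-- the condition for a pair -/
def tc (Δ p : ℕ) (y : J × ℕ) : Prop := cd Δ y.1 ∧ y.2 < p ∧ rtc p (fr Δ y.1) y.2

instance (Δ p : ℕ) (y : J × ℕ) : Decidable (tc Δ p y) := by
  unfold tc
  infer_instance

/-- the sum over the indices with `p ∣ A` as a sum over pairs -/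
theorem move {Δ p : ℕ} (hp : 0 < p) (s : J → ℝ) (t : J × ℕ → ℝ)
    (h0 : ∀ y, ¬ (cd Δ y ∧ p ∣ y.1.2) → s y = 0)
    (h1 : ∀ y : J × ℕ, tc Δ p y → s (th p y.1 y.2) = t y) (hs : Summable s) :
    Summable (fun y => if tc Δ p y then t y else 0) ∧
      ∑' y, s y = ∑' y : J × ℕ, (if tc Δ p y then t y else 0) := by
  let g : {y : J × ℕ // tc Δ p y} → J := fun y => th p y.1.1 y.1.2
  have hg : Function.Injective g := by
    intro y y' h
    obtain ⟨e1, e2⟩ := th_inj hp y.2.1 y'.2.1 h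
    exact Subtype.ext (Prod.ext e1 e2)
  have hsupp : Function.support s ⊆ Set.range g := by
    intro y hy
    by_contra hcon
    apply hy
    apply h0
    rintro ⟨h2, h3⟩
    obtain ⟨x, j, k1, k2, k3, k4⟩ := th_surj hp h2 h3
    exact hcon ⟨⟨(x, j), k1, k2, k3⟩, k4⟩
  have e1 : ∑' y : {y : J × ℕ // tc Δ p y}, s (g y) = ∑' y, s y := hg.tsum_eq hsupp
  have hs1 : Summable fun y : {y : J × ℕ // tc Δ p y} => s (g y) := hs.comp_injective hg
  have hind : (fun y : J × ℕ => if tc Δ p y then t y else 0) =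
      {y | tc Δ p y}.indicator t := by
    funext y
    by_cases h : tc Δ p y
    · rw [if_pos h, indicator_of_mem (show y ∈ {y | tc Δ p y} from h)]
    · rw [if_neg h, indicator_of_notMem (show y ∉ {y | tc Δ p y} from h)]
  have hs2 : Summable fun y : {y : J × ℕ // tc Δ p y} => t y.1 :=
    hs1.congr fun y => h1 y.1 y.2
  constructor
  · rw [hind]
    exact summable_subtype_iff_indicator.1 hs2
  · rw [← e1, hind, ← tsum_subtype]
    exact tsum_congr fun y => h1 y.1 y.2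

theorem inner_sum (Δ p : ℕ) (t : J × ℕ → ℝ) (x : J) :
    ∑' j : ℕ, (if tc Δ p (x, j) then t (x, j) else 0) =
      if cd Δ x then ∑ j ∈ (Finset.range p).filter (fun j => rtc p (fr Δ x) j), t (x, j) else 0 := by
  rw [tsum_eq_sum (s := (Finset.range p).filter (fun j => rtc p (fr Δ x) j))]
  · split_ifs with h
    · refine Finset.sum_congr rfl fun j hj => ?_
      rw [Finset.mem_filter, Finset.mem_range] at hj
      rw [if_pos ⟨h, hj.1, hj.2⟩]
    · exact Finset.sum_eq_zero fun j _ => if_neg fun h1 => h h1.1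
  · intro j hj
    rw [if_neg]
    intro h
    apply hj
    rw [Finset.mem_filter, Finset.mem_range]
    exact ⟨h.2.1, h.2.2⟩

/-- the first part of the weight -/
noncomputable def w1 (p : ℕ) (ω : QF → ℕ → ℝ) (Q : QF) (e : ℕ) : ℝ :=
  if (p : ℤ) ∣ Q.1 then ω (dn p Q) e else 0

/-- the first part of the Hecke operator -/
noncomputable def F1 (p : ℕ) (F : QF → ℝ) (Q : QF) : ℝ :=
  if (p : ℤ) ∣ Q.1 then F (dn p Q) else 0

theorem dvd_fr (Δ p : ℕ) (x : J) : (p : ℤ) ∣ (fr Δ x).1 ↔ p ∣ x.1.2 := by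
  show (p : ℤ) ∣ ((x.1.2 : ℕ) : ℤ) ↔ p ∣ x.1.2
  exact Int.natCast_dvd_natCast

theorem pf_ADJ : T_ADJ := by
  intro Δ p k K c ω F hΔ hpp hc hω0 hωt hFt hωb hFb
  have hp : 0 < p := hpp.pos
  have hpR : (1 : ℝ) ≤ p := by exact_mod_cast hp
  have hpz : (p : ℤ) ≠ 0 := by exact_mod_cast hp.ne'
  -- the two simple sums
  have hs1 : Summable (ust Δ (w1 p ω) F) := by
    refine ust_summable (K := |K|) (K' := K) (k := k) (c := c / p) (by positivity) ?_ ?_ hFb
    · intro Q hQ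
      unfold w1
      split_ifs with h
      · exact hω0 _ (dn_mem hp hQ h).1
      · rfl
    · intro Q hQ e _
      unfold w1
      split_ifs with h
      · obtain ⟨h1, h2⟩ := dn_mem hp hQ h
        refine (hωb _ h1 e).trans ?_
        have h3 : c * ((e : ℝ) ^ 2 * ((dn p Q).1 : ℝ)) = c / p * ((e : ℝ) ^ 2 * Q.1) := by
          rw [← h2]
          field_simp
        rw [h3]
        exact mul_le_mul_of_nonneg_right (le_abs_self K) (Real.exp_pos _).le
      · rw [abs_zero]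
        positivity
  have hs2 : Summable (ust Δ ω (F1 p F)) := by
    refine ust_summable (K := K) (K' := |K|) (k := k) (c := c) hc hω0 (fun Q hQ e _ => hωb Q hQ e)
      ?_
    intro Q hQ
    have hQ0 : (0 : ℝ) < Q.1 := by exact_mod_cast hQ.1
    unfold F1
    split_ifs with h
    · obtain ⟨h1, h2⟩ := dn_mem hp hQ h
      have h0 : (0 : ℝ) < (dn p Q).1 := by exact_mod_cast h1.1
      refine (hFb _ h1).trans ?_
      have h3 : ((dn p Q).1 : ℝ) ≤ Q.1 := by
        rw [← h2]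
        exact le_mul_of_one_le_left h0.le hpR
      have h4 : (1 + ((dn p Q).1 : ℝ)) ^ k ≤ (1 + (Q.1 : ℝ)) ^ k :=
        pow_le_pow_left₀ (by linarith) (by linarith) k
      have h5 : 0 ≤ (1 + ((dn p Q).1 : ℝ)) ^ k := by positivity
      exact (mul_le_mul_of_nonneg_right (le_abs_self K) h5).trans
        (mul_le_mul_of_nonneg_left h4 (abs_nonneg K))
    · rw [abs_zero]
      positivity
  -- the sums over pairs
  obtain ⟨t₁, ht₁⟩ : ∃ t : J × ℕ → ℝ, t = fun y => ω (up p (fr Δ y.1) y.2) y.1.1.1 *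
    F (fr Δ y.1) := ⟨_, rfl⟩
  obtain ⟨t₂, ht₂⟩ : ∃ t : J × ℕ → ℝ, t = fun y => ω (fr Δ y.1) y.1.1.1 *
    F (up p (fr Δ y.1) y.2) := ⟨_, rfl⟩
  obtain ⟨m1, m2⟩ := move hp (ust Δ (w1 p ω) F) t₂ (fun y hy => by
    unfold ust
    split_ifs with h
    · unfold w1
      rw [if_neg, zero_mul]
      intro h1
      exact hy ⟨h, (dvd_fr Δ p y).1 h1⟩
    · rfl) (fun y hy => by
    obtain ⟨h1, h2⟩ := th_cd hp hy.1 hy.2.1 hy.2.2
    unfold ust
    rw [if_pos h1, h2, ht₂]
    unfold w1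
    rw [if_pos (show (p : ℤ) ∣ (up p (fr Δ y.1) y.2).1 from ⟨_, rfl⟩)]
    have h3 := dn_up (G := fun Q => ω Q y.1.1.1) hp (fun Q hQ => hωt Q hQ y.1.1.1)
      (fr_mem hy.1) hy.2.2
    rw [show (th p y.1 y.2).1.1 = y.1.1.1 from rfl, h3]) hs1
  obtain ⟨m3, m4⟩ := move hp (ust Δ ω (F1 p F)) t₁ (fun y hy => by
    unfold ust
    split_ifs with h
    · unfold F1
      rw [if_neg, mul_zero]
      intro h1
      exact hy ⟨h, (dvd_fr Δ p y).1 h1⟩
    · rfl) (fun y hy => by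
    obtain ⟨h1, h2⟩ := th_cd hp hy.1 hy.2.1 hy.2.2
    unfold ust
    rw [if_pos h1, h2, ht₁]
    unfold F1
    rw [if_pos (show (p : ℤ) ∣ (up p (fr Δ y.1) y.2).1 from ⟨_, rfl⟩)]
    rw [dn_up (G := F) hp hFt (fr_mem hy.1) hy.2.2]
    rfl) hs2
  -- the right side
  obtain ⟨r₂, hr₂⟩ : ∃ r : J → ℝ, r = fun x => ∑' j : ℕ, (if tc Δ p (x, j) then t₂ (x, j) else 0) :=
    ⟨_, rfl⟩
  obtain ⟨r₁, hr₁⟩ : ∃ r : J → ℝ, r = fun x => ∑' j : ℕ, (if tc Δ p (x, j) then t₁ (x, j) else 0) :=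
    ⟨_, rfl⟩
  have hr2s : Summable r₂ := by rw [hr₂]; exact m1.prod
  have hr1s : Summable r₁ := by rw [hr₁]; exact m3.prod
  have hr2e : ∑' x, r₂ x = ∑' y : J × ℕ, (if tc Δ p y then t₂ y else 0) := by
    rw [hr₂]
    exact m1.tsum_prod.symm
  have hr1e : ∑' x, r₁ x = ∑' y : J × ℕ, (if tc Δ p y then t₁ y else 0) := by
    rw [hr₁]
    exact m3.tsum_prod.symm
  have hR : ∀ x, ust Δ ω (Tp p F) x = ust Δ ω (F1 p F) x + r₂ x := by
    intro x
    rw [hr₂]
    simp only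
    rw [inner_sum]
    unfold ust
    split_ifs with h
    · have h1 : Tp p F (fr Δ x) = F1 p F (fr Δ x) +
        ∑ j ∈ (Finset.range p).filter (fun j => rtc p (fr Δ x) j), F (up p (fr Δ x) j) := rfl
      rw [h1, mul_add, Finset.mul_sum, ht₂]
    · rw [add_zero]
  -- the left side
  obtain ⟨q, hq⟩ : ∃ q : J → ℝ, q = fun x => if p ∣ x.1.1 then (if cd Δ x then
    ∑ j ∈ (Finset.range p).filter (fun j => rtc p (fr Δ x) j),
      ω (up p (fr Δ x) j) (x.1.1 / p) * F (fr Δ x) else 0) else 0 := ⟨_, rfl⟩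
  have hL : ∀ x, ust Δ (Wp p ω) F x = ust Δ (w1 p ω) F x + q x := by
    intro x
    rw [hq]
    simp only
    unfold ust
    by_cases h : cd Δ x
    · rw [if_pos h, if_pos h, if_pos h]
      have h1 : Wp p ω (fr Δ x) x.1.1 = w1 p ω (fr Δ x) x.1.1 + (if p ∣ x.1.1 then
        ∑ j ∈ (Finset.range p).filter (fun j => rtc p (fr Δ x) j),
          ω (up p (fr Δ x) j) (x.1.1 / p) else 0) := rfl
      rw [h1, add_mul, ite_mul, zero_mul, Finset.sum_mul]
    · rw [if_neg h, if_neg h, if_neg h, ite_self, add_zero]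
  let me : J → J := fun x => ((p * x.1.1, x.1.2), x.2)
  have hme : Function.Injective me := by
    intro x x' h
    have h1 : ((p * x.1.1, x.1.2), x.2) = ((p * x'.1.1, x'.1.2), x'.2) := h
    simp only [Prod.mk.injEq] at h1
    exact Prod.ext (Prod.ext (Nat.eq_of_mul_eq_mul_left hp h1.1.1) h1.1.2) h1.2
  have hqme : ∀ x, q (me x) = r₁ x := by
    intro x
    rw [hr₁, hq]
    simp only
    rw [inner_sum, if_pos (show p ∣ (me x).1.1 from ⟨_, rfl⟩), ht₁]
    have h1 : (me x).1.1 / p = x.1.1 := Nat.mul_div_cancel_left _ hp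
    rw [h1]
    rfl
  have hq0 : ∀ x, x ∉ Set.range me → q x = 0 := by
    intro x hx
    rw [hq]
    simp only
    rw [if_neg]
    rintro ⟨e, he⟩
    exact hx ⟨((e, x.1.2), x.2), by
      show ((p * e, x.1.2), x.2) = x
      rw [← he]⟩
  have hqs : Summable q := by
    refine (hme.summable_iff hq0).1 ?_
    exact hr1s.congr fun x => (hqme x).symm
  have hqe : ∑' x, q x = ∑' x, r₁ x := by
    rw [← hme.tsum_eq (f := q) (fun x hx => by
      by_contra hcon
      exact hx (hq0 x hcon))]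
    exact tsum_congr hqme
  have hLs : Summable (ust Δ (Wp p ω) F) := (hs1.add hqs).congr fun x => (hL x).symm
  have hRs : Summable (ust Δ ω (Tp p F)) := (hs2.add hr2s).congr fun x => (hR x).symm
  rw [US_eq _ _ _ hLs, US_eq _ _ _ hRs, tsum_congr hL, tsum_congr hR, hs1.tsum_add hqs,
    hs2.tsum_add hr2s, hqe, hr1e, ← m4, hr2e, ← m2, add_comm]

end Pool.Agent.H56.CN
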