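import Pool.Agent.H31.CN.T1

/-!
# PAR: parametrisation of the pairs (form, nonzero vector)
-/

set_option autoImplicit false

open MeasureTheory Set Filter
open scoped Real Matrix MatrixGroups

namespace Pool.Agent.H56.CN

open Pool.Agent.H31.CN

/-- a matrix of determinant one -/
def mk (a b c d : ℤ) (h : a * d - b * c = 1) : SL(2, ℤ) :=
  ⟨!![a, b; c, d], by rw [Matrix.det_fin_two_of]; exact h⟩

theorem gv_mk (a b c d : ℤ) (h : a * d - b * c = 1) (v : ℤ × ℤ) :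
    gv (mk a b c d h) v = (a * v.1 + b * v.2, c * v.1 + d * v.2) := by
  simp [gv, mk]

theorem act_upper (A B C t : ℤ) :
    act (A, B, C) (mk 1 t 0 1 (by ring)) = (A, B + 2 * A * t, A * t ^ 2 + B * t + C) := by
  simp only [act, mk, val]
  simp
  ring

theorem det_eq (k : SL(2, ℤ)) : k 0 0 * k 1 1 - k 0 1 * k 1 0 = 1 := by
  have h := k.det_coe
  rw [Matrix.det_fin_two] at h
  exact h

/-- the form with natural coefficients -/
def frm (Δ A B : ℕ) : QF := ((A : ℤ), (B : ℤ), (((B ^ 2 + Δ) / (4 * A) : ℕ) : ℤ))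

theorem par_exists (hACT : T_ACT) {Δ : ℕ} {Q : QF} {v : ℤ × ℤ} (hΔ : 0 < Δ) (hQ : Q ∈ FD Δ)
    (hv : v ≠ 0) : ∃ (e A B : ℕ) (g : SL(2, ℤ)), 1 ≤ e ∧ 1 ≤ A ∧ B < 2 * A ∧
      4 * A ∣ B ^ 2 + Δ ∧ act (frm Δ A B) g = Q ∧ gv g v = ((e : ℤ), 0) := by
  have he : 0 < Int.gcd v.1 v.2 := by
    refine Int.gcd_pos_iff.2 ?_
    by_contra h
    push Not at h
    exact hv (Prod.ext h.1 h.2)
  obtain ⟨x, hx⟩ := Int.gcd_dvd_left (a := v.1) (b := v.2)
  obtain ⟨y, hy⟩ := Int.gcd_dvd_right (a := v.1) (b := v.2)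
  set e := Int.gcd v.1 v.2 with hedef
  have he' : (e : ℤ) ≠ 0 := by exact_mod_cast he.ne'
  obtain ⟨a, b, hab⟩ : ∃ a b : ℤ, a * x + b * y = 1 := by
    refine ⟨Int.gcdA v.1 v.2, Int.gcdB v.1 v.2, ?_⟩
    have h1 := Int.gcd_eq_gcd_ab v.1 v.2
    apply mul_left_cancel₀ he'
    rw [← hedef] at h1
    have h2 : (e : ℤ) * (Int.gcdA v.1 v.2 * x + Int.gcdB v.1 v.2 * y) =
        ((e : ℤ) * x) * Int.gcdA v.1 v.2 + ((e : ℤ) * y) * Int.gcdB v.1 v.2 := by ring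
    rw [h2, ← hx, ← hy, mul_one]
    exact h1.symm
  set h : SL(2, ℤ) := mk a b (-y) x (by linear_combination hab) with hh
  have hgv : gv h v = ((e : ℤ), 0) := by
    rw [hh, gv_mk]
    ext
    · simp only
      rw [hx, hy]
      linear_combination (e : ℤ) * hab
    · simp only
      rw [hx, hy]
      ring
  have hQ' := ((hACT Q h⁻¹ 1 0).2.2.2.2.2 Δ hΔ hQ).1
  set Q' := act Q h⁻¹ with hQ'def
  obtain ⟨hA0, hdsc⟩ := hQ'
  obtain ⟨A₁, B₁, C₁⟩ := Q'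
  simp only at hA0
  unfold dsc at hdsc
  simp only at hdsc
  obtain ⟨A, hA⟩ : ∃ A : ℕ, (A : ℤ) = A₁ := ⟨A₁.toNat, Int.toNat_of_nonneg hA0.le⟩
  have h2A : (0 : ℤ) < 2 * A₁ := by omega
  obtain ⟨B, hB⟩ : ∃ B : ℕ, (B : ℤ) = B₁ % (2 * A₁) :=
    ⟨(B₁ % (2 * A₁)).toNat, Int.toNat_of_nonneg (Int.emod_nonneg _ h2A.ne')⟩
  obtain ⟨t, ht⟩ : ∃ t : ℤ, B₁ = B + 2 * A₁ * t :=
    ⟨B₁ / (2 * A₁), by rw [hB]; exact (Int.emod_add_mul_ediv B₁ (2 * A₁)).symm⟩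
  have hBlt : (B : ℤ) < 2 * A₁ := by
    rw [hB]
    exact Int.emod_lt_of_pos _ h2A
  have hdiv : (((B ^ 2 + Δ : ℕ)) : ℤ) = ((4 * A : ℕ) : ℤ) * (C₁ - B * t - A₁ * t ^ 2) := by
    push_cast
    rw [hA]
    rw [ht] at hdsc
    linear_combination -hdsc
  have hApos : 0 < A := by
    have : (0 : ℤ) < (A : ℤ) := by rw [hA]; exact hA0
    exact_mod_cast this
  have hC : (((B ^ 2 + Δ) / (4 * A) : ℕ) : ℤ) = C₁ - B * t - A₁ * t ^ 2 := by
    rw [Int.natCast_div, hdiv]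
    exact Int.mul_ediv_cancel_left _ (by
      have : (0 : ℤ) < ((4 * A : ℕ) : ℤ) := by exact_mod_cast (by omega : 0 < 4 * A)
      exact this.ne')
  have hfrm : act (frm Δ A B) (mk 1 t 0 1 (by ring)) = (A₁, B₁, C₁) := by
    rw [frm, hC, hA, act_upper, ← ht]
    ext
    · rfl
    · rfl
    · simp only
      ring
  refine ⟨e, A, B, mk 1 t 0 1 (by ring) * h, he, hApos, ?_, ?_, ?_, ?_⟩
  · have : (B : ℤ) < 2 * (A : ℤ) := by rw [hA]; exact hBlt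
    exact_mod_cast this
  · exact Int.natCast_dvd_natCast.1 ⟨_, hdiv⟩
  · rw [← (hACT (frm Δ A B) (mk 1 t 0 1 (by ring)) h 0).2.2.2.1, hfrm, hQ'def,
      (hACT Q h⁻¹ h 0).2.2.2.1, inv_mul_cancel, (hACT Q 1 1 0).2.2.1]
  · rw [(hACT Q (mk 1 t 0 1 (by ring)) h v).2.2.2.2.1, hgv, gv_mk]
    simp

theorem par_unique (hACT : T_ACT) {Δ : ℕ} {v : ℤ × ℤ} {e A B e' A' B' : ℕ}
    {g g' : SL(2, ℤ)} {Q : QF} (he : 1 ≤ e) (he' : 1 ≤ e') (hA : 1 ≤ A) (hB : B < 2 * A)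
    (hB' : B' < 2 * A') (hQ : act (frm Δ A B) g = Q) (hQ' : act (frm Δ A' B') g' = Q)
    (hv : gv g v = ((e : ℤ), 0)) (hv' : gv g' v = ((e' : ℤ), 0)) :
    e = e' ∧ A = A' ∧ B = B' ∧ g = g' := by
  set k := g' * g⁻¹ with hk
  have h1 : gv k ((e : ℤ), 0) = ((e' : ℤ), 0) := by
    rw [← hv, ← (hACT Q k g v).2.2.2.2.1, hk, inv_mul_cancel_right, hv']
  have h2 : act (frm Δ A' B') k = frm Δ A B := by
    rw [hk, ← (hACT (frm Δ A' B') g' g⁻¹ 0).2.2.2.1, hQ', ← hQ,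
      (hACT (frm Δ A B) g g⁻¹ 0).2.2.2.1, mul_inv_cancel, (hACT (frm Δ A B) 1 1 0).2.2.1]
  unfold gv at h1
  simp only [mul_zero, add_zero, Prod.mk.injEq] at h1
  obtain ⟨h3, h4⟩ := h1
  have h5 : k 1 0 = 0 := (mul_eq_zero.1 h4).resolve_right (by exact_mod_cast (by omega : e ≠ 0))
  have h6 := det_eq k
  rw [h5, mul_zero, sub_zero] at h6
  have h7 : k 0 0 = 1 ∧ k 1 1 = 1 := by
    rcases Int.mul_eq_one_iff_eq_one_or_neg_one.1 h6 with h | h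
    · exact h
    · exfalso
      rw [h.1] at h3
      have : (0 : ℤ) < e := by exact_mod_cast he
      have : (0 : ℤ) < e' := by exact_mod_cast he'
      omega
  rw [h7.1, one_mul] at h3
  have hee : e = e' := by exact_mod_cast h3
  have h8 := congrArg Prod.fst h2
  have h9 := congrArg (fun Q : QF => Q.2.1) h2
  simp only [act, frm, val] at h8 h9
  rw [h5, h7.1] at h8
  rw [h5, h7.1, h7.2] at h9
  have h10 : (A' : ℤ) = A := by linear_combination h8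
  have h11 : 2 * (A' : ℤ) * k 0 1 + B' = B := by linear_combination h9
  have hAA : A = A' := by exact_mod_cast h10.symm
  subst hAA
  have hn : k 0 1 = 0 := by
    have b1 : (B : ℤ) < 2 * A := by exact_mod_cast hB
    have b2 : (B' : ℤ) < 2 * A := by exact_mod_cast hB'
    have b3 : (0 : ℤ) ≤ B := Nat.cast_nonneg _
    have b4 : (0 : ℤ) ≤ B' := Nat.cast_nonneg _
    have b5 : (0 : ℤ) < A := by exact_mod_cast hA
    rcases lt_trichotomy (k 0 1) 0 with h | h | h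
    · exfalso
      have : 2 * (A : ℤ) * k 0 1 ≤ 2 * A * (-1) :=
        mul_le_mul_of_nonneg_left (by omega) (by omega)
      omega
    · exact h
    · exfalso
      have : 2 * (A : ℤ) * 1 ≤ 2 * A * k 0 1 :=
        mul_le_mul_of_nonneg_left (by omega) (by omega)
      omega
  rw [hn, mul_zero, zero_add] at h11
  have hBB : B = B' := by exact_mod_cast h11.symm
  refine ⟨hee, rfl, hBB, ?_⟩
  have hk1 : k = 1 := by
    ext i j
    fin_cases i <;> fin_cases j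
    · simpa using h7.1
    · simpa using hn
    · simpa using h5
    · simpa using h7.2
  rw [hk] at hk1
  exact (mul_inv_eq_one.1 hk1).symm

theorem pf_PAR (hACT : T_ACT) : T_PAR := by
  intro Δ Q v hΔ hQ hv
  obtain ⟨e, A, B, g, h1, h2, h3, h4, h5, h6⟩ := par_exists hACT hΔ hQ hv
  refine ⟨((e, A, B), g), ⟨h1, h2, h3, h4, h5, h6⟩, ?_⟩
  rintro ⟨⟨e', A', B'⟩, g'⟩ ⟨k1, k2, k3, k4, k5, k6⟩
  obtain ⟨e1, e2, e3, e4⟩ := par_unique hACT k1 h1 k2 k3 h3 k5 h5 k6 h6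
  subst e1 e2 e3 e4
  rfl

end Pool.Agent.H56.CN
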