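import Pool.Agent.H56.CN.UST

/-!
# ADJ: the Hecke operator can be moved to the weight
-/

set_option autoImplicit false

open MeasureTheory Set Filter
open scoped Real Matrix MatrixGroups

namespace Pool.Agent.H56.CN

open Pool.Agent.H31.CN

/-- the form of index `p` below -/
def dn (p : ℕ) (Q : QF) : QF := (Q.1 / p, Q.2.1, p * Q.2.2)

/-- the other forms -/
def up (p : ℕ) (Q : QF) (j : ℕ) : QF :=
  (p * Q.1, Q.2.1 + 2 * Q.1 * j, (Q.1 * (j : ℤ) ^ 2 + Q.2.1 * (j : ℤ) + Q.2.2) / p)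

/-- the root condition -/
def rtc (p : ℕ) (Q : QF) (j : ℕ) : Prop := (p : ℤ) ∣ Q.1 * (j : ℤ) ^ 2 + Q.2.1 * (j : ℤ) + Q.2.2

instance (p : ℕ) (Q : QF) (j : ℕ) : Decidable (rtc p Q j) := by
  unfold rtc
  infer_instance

/-- the map of the indices -/
def th (p : ℕ) (x : J) (j : ℕ) : J := ((x.1.1, p * x.1.2), x.2 + 2 * x.1.2 * j)

/-- the discriminant equation -/
theorem fr_dsc {Δ : ℕ} {x : J} (h : cd Δ x) :
    4 * (x.1.2 : ℤ) * (((x.2 ^ 2 + Δ) / (4 * x.1.2) : ℕ) : ℤ) = (x.2 : ℤ) ^ 2 + Δ := by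
  exact_mod_cast Nat.mul_div_cancel' h.2

theorem th_cd {Δ p : ℕ} (hp : 0 < p) {x : J} (h : cd Δ x) {j : ℕ} (hj : j < p)
    (hr : rtc p (fr Δ x) j) : cd Δ (th p x j) ∧ fr Δ (th p x j) = up p (fr Δ x) j := by
  obtain ⟨⟨e, A⟩, B⟩ := x
  have hA : 0 < A := cd_pos h
  have hd := fr_dsc h
  have hB : B < 2 * A := h.1
  obtain ⟨C, hC⟩ : ∃ C : ℤ, C = (((B ^ 2 + Δ) / (4 * A) : ℕ) : ℤ) := ⟨_, rfl⟩
  have hfr : fr Δ ((e, A), B) = ((A : ℤ), (B : ℤ), C) := by rw [hC]; rfl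
  simp only at hd
  rw [← hC] at hd
  rw [hfr] at hr ⊢
  obtain ⟨C', hC'⟩ := hr
  simp only at hC'
  have hp' : (p : ℤ) ≠ 0 := by exact_mod_cast hp.ne'
  have key : (((B + 2 * A * j) ^ 2 + Δ : ℕ) : ℤ) = ((4 * (p * A) : ℕ) : ℤ) * C' := by
    push_cast
    linear_combination (-1 : ℤ) * hd + 4 * (A : ℤ) * hC'
  have hlt : B + 2 * A * j < 2 * (p * A) := by
    have h1 : 2 * A * j ≤ 2 * A * (p - 1) := Nat.mul_le_mul_left _ (by omega)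
    obtain ⟨q, rfl⟩ : ∃ q, p = q + 1 := ⟨p - 1, by omega⟩
    have h2 : q + 1 - 1 = q := rfl
    rw [h2] at h1
    have h3 : 2 * ((q + 1) * A) = 2 * A * q + 2 * A := by ring
    rw [h3]
    omega
  refine ⟨⟨hlt, Int.natCast_dvd_natCast.1 ⟨C', key⟩⟩, ?_⟩
  have h4 : ((((B + 2 * A * j) ^ 2 + Δ) / (4 * (p * A)) : ℕ) : ℤ) = C' := by
    rw [Int.natCast_div, key]
    exact Int.mul_ediv_cancel_left _ (by
      have : (0 : ℤ) < ((4 * (p * A) : ℕ) : ℤ) := by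
        have : 0 < 4 * (p * A) := by positivity
        exact_mod_cast this
      exact this.ne')
  have h5 : fr Δ (th p ((e, A), B) j) =
      (((p * A : ℕ) : ℤ), ((B + 2 * A * j : ℕ) : ℤ),
        ((((B + 2 * A * j) ^ 2 + Δ) / (4 * (p * A)) : ℕ) : ℤ)) := rfl
  rw [h5, h4]
  unfold up
  simp only
  rw [hC', Int.mul_ediv_cancel_left _ hp']
  push_cast
  rfl

theorem th_surj {Δ p : ℕ} (hp : 0 < p) {y : J} (h : cd Δ y) (hd : p ∣ y.1.2) :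
    ∃ (x : J) (j : ℕ), cd Δ x ∧ j < p ∧ rtc p (fr Δ x) j ∧ th p x j = y := by
  obtain ⟨⟨e, A'⟩, B'⟩ := y
  obtain ⟨A, hA⟩ := hd
  simp only at hA
  subst hA
  have hA0 : 0 < p * A := cd_pos h
  have hA : 0 < A := Nat.pos_of_ne_zero (by rintro rfl; simp at hA0)
  obtain ⟨B, j, hB, hj⟩ : ∃ B j : ℕ, B < 2 * A ∧ B' = B + 2 * A * j :=
    ⟨B' % (2 * A), B' / (2 * A), Nat.mod_lt _ (by omega), (Nat.mod_add_div B' (2 * A)).symm⟩
  subst hj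
  obtain ⟨hlt, c, hc⟩ := h
  simp only at hlt hc
  have hjp : j < p := by
    by_contra hcon
    push Not at hcon
    have h1 : 2 * A * p ≤ 2 * A * j := Nat.mul_le_mul_left _ hcon
    have h2 : 2 * (p * A) = 2 * A * p := by ring
    omega
  -- B ^ 2 + Δ = 4 A (p c - A j ^ 2 - B j)
  have hcz : ((B : ℤ) + 2 * A * j) ^ 2 + Δ = 4 * (p * A) * c := by exact_mod_cast hc
  have hAz : (A : ℤ) ≠ 0 := by exact_mod_cast hA.ne'
  have hdiv : ((B ^ 2 + Δ : ℕ) : ℤ) = ((4 * A : ℕ) : ℤ) * (p * c - A * j ^ 2 - B * j) := by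
    push_cast
    linear_combination hcz
  have hcd : cd Δ ((e, A), B) := ⟨hB, Int.natCast_dvd_natCast.1 ⟨_, hdiv⟩⟩
  refine ⟨((e, A), B), j, hcd, hjp, ?_, rfl⟩
  have h4 : (((B ^ 2 + Δ) / (4 * A) : ℕ) : ℤ) = p * c - A * j ^ 2 - B * j := by
    rw [Int.natCast_div, hdiv]
    exact Int.mul_ediv_cancel_left _ (by
      have : (0 : ℤ) < ((4 * A : ℕ) : ℤ) := by
        have : 0 < 4 * A := by positivity
        exact_mod_cast this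
      exact this.ne')
  show (p : ℤ) ∣ (A : ℤ) * (j : ℤ) ^ 2 + (B : ℤ) * (j : ℤ) + (((B ^ 2 + Δ) / (4 * A) : ℕ) : ℤ)
  rw [h4]
  exact ⟨c, by ring⟩

theorem th_inj {Δ p : ℕ} (hp : 0 < p) {x x' : J} {j j' : ℕ} (h : cd Δ x) (h' : cd Δ x')
    (he : th p x j = th p x' j') : x = x' ∧ j = j' := by
  obtain ⟨⟨e, A⟩, B⟩ := x
  obtain ⟨⟨e', A'⟩, B'⟩ := x'
  unfold th at he
  simp only [Prod.mk.injEq] at he
  obtain ⟨⟨h1, h2⟩, h3⟩ := he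
  subst h1
  have hAA : A = A' := Nat.eq_of_mul_eq_mul_left hp h2
  subst hAA
  have hA : 0 < A := cd_pos h
  have hB : B < 2 * A := h.1
  have hB' : B' < 2 * A := h'.1
  have h4 : B = B' := by
    have a1 : (B + 2 * A * j) % (2 * A) = B := by
      rw [Nat.add_mul_mod_self_left, Nat.mod_eq_of_lt hB]
    have a2 : (B' + 2 * A * j') % (2 * A) = B' := by
      rw [Nat.add_mul_mod_self_left, Nat.mod_eq_of_lt hB']
    rw [← a1, ← a2, h3]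
  subst h4
  have h5 : 2 * A * j = 2 * A * j' := by omega
  exact ⟨rfl, Nat.eq_of_mul_eq_mul_left (by omega) h5⟩

/-- translations -/
theorem trans_j {X : Type} {Δ : ℕ} {G : QF → X}
    (hG : ∀ Q ∈ FD Δ, G (Q.1, Q.2.1 + 2 * Q.1, Q.1 + Q.2.1 + Q.2.2) = G Q) {Q : QF}
    (hQ : Q ∈ FD Δ) (j : ℕ) :
    G (Q.1, Q.2.1 + 2 * Q.1 * j, Q.1 * (j : ℤ) ^ 2 + Q.2.1 * (j : ℤ) + Q.2.2) = G Q := by
  induction j with
  | zero => simp
  | succ j ih =>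
    rw [← ih]
    have hm : ((Q.1, Q.2.1 + 2 * Q.1 * j, Q.1 * (j : ℤ) ^ 2 + Q.2.1 * (j : ℤ) + Q.2.2) : QF) ∈
        FD Δ := by
      refine ⟨hQ.1, ?_⟩
      have h1 : 4 * Q.1 * Q.2.2 - Q.2.1 ^ 2 = Δ := hQ.2
      show 4 * Q.1 * (Q.1 * (j : ℤ) ^ 2 + Q.2.1 * (j : ℤ) + Q.2.2) -
        (Q.2.1 + 2 * Q.1 * j) ^ 2 = Δ
      linear_combination h1
    rw [← hG _ hm]
    congr 1
    refine Prod.ext rfl (Prod.ext ?_ ?_)
    · simp only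
      push_cast
      ring
    · simp only
      push_cast
      ring

theorem dn_up {Δ p : ℕ} (hp : 0 < p) {X : Type} {G : QF → X}
    (hG : ∀ Q ∈ FD Δ, G (Q.1, Q.2.1 + 2 * Q.1, Q.1 + Q.2.1 + Q.2.2) = G Q) {Q : QF}
    (hQ : Q ∈ FD Δ) {j : ℕ} (hr : rtc p Q j) : G (dn p (up p Q j)) = G Q := by
  have hp' : (p : ℤ) ≠ 0 := by exact_mod_cast hp.ne'
  rw [← trans_j hG hQ j]
  congr 1
  unfold dn up
  simp only
  rw [Int.mul_ediv_cancel_left _ hp', Int.mul_ediv_cancel' hr]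

theorem dn_mem {Δ p : ℕ} (hp : 0 < p) {Q : QF} (hQ : Q ∈ FD Δ) (h : (p : ℤ) ∣ Q.1) :
    dn p Q ∈ FD Δ ∧ (p : ℝ) * ((dn p Q).1 : ℝ) = Q.1 := by
  obtain ⟨A, hA⟩ := h
  have hp' : (p : ℤ) ≠ 0 := by exact_mod_cast hp.ne'
  have hp0 : (0 : ℤ) < p := by exact_mod_cast hp
  have h1 : Q.1 / p = A := by rw [hA, Int.mul_ediv_cancel_left _ hp']
  have h0 : 0 < Q.1 := hQ.1
  have h2 : 4 * Q.1 * Q.2.2 - Q.2.1 ^ 2 = Δ := hQ.2
  refine ⟨⟨?_, ?_⟩, ?_⟩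
  · show 0 < Q.1 / p
    rw [h1]
    rw [hA] at h0
    exact (mul_pos_iff_of_pos_left hp0).1 h0
  · show 4 * (Q.1 / p) * (p * Q.2.2) - Q.2.1 ^ 2 = Δ
    rw [h1, ← h2, hA]
    ring
  · show (p : ℝ) * ((Q.1 / p : ℤ) : ℝ) = Q.1
    rw [h1, hA]
    push_cast
    ring

end Pool.Agent.H56.CN
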