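import Pool.Agent.H56.CN.PAR

/-!
# The unfolded sum as an absolutely convergent sum
-/

set_option autoImplicit false

open MeasureTheory Set Filter
open scoped Real Matrix MatrixGroups

namespace Pool.Agent.H56.CN

open Pool.Agent.H31.CN

/-- the index set: `((e, A), B)` -/
abbrev J : Type := (ℕ × ℕ) × ℕ

/-- the form of an index -/
def fr (Δ : ℕ) (x : J) : QF := frm Δ x.1.2 x.2

/-- the condition for `(A, B)` -/
def cd (Δ : ℕ) (x : J) : Prop := x.2 < 2 * x.1.2 ∧ 4 * x.1.2 ∣ x.2 ^ 2 + Δ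

instance (Δ : ℕ) (x : J) : Decidable (cd Δ x) := by
  unfold cd
  infer_instance

theorem cd_pos {Δ : ℕ} {x : J} (h : cd Δ x) : 1 ≤ x.1.2 := by
  have := h.1
  omega

theorem fr_mem {Δ : ℕ} {x : J} (h : cd Δ x) : fr Δ x ∈ FD Δ := by
  have h1 := cd_pos h
  refine ⟨?_, ?_⟩
  · show (0 : ℤ) < (x.1.2 : ℤ)
    exact_mod_cast h1
  · have h2 : 4 * x.1.2 * ((x.2 ^ 2 + Δ) / (4 * x.1.2)) = x.2 ^ 2 + Δ := Nat.mul_div_cancel' h.2
    show 4 * (x.1.2 : ℤ) * (((x.2 ^ 2 + Δ) / (4 * x.1.2) : ℕ) : ℤ) - (x.2 : ℤ) ^ 2 = Δ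
    have h3 : 4 * (x.1.2 : ℤ) * (((x.2 ^ 2 + Δ) / (4 * x.1.2) : ℕ) : ℤ) = (x.2 : ℤ) ^ 2 + Δ := by
      exact_mod_cast h2
    rw [h3]
    ring

/-- the terms of `US` -/
noncomputable def ust (Δ : ℕ) (ω : QF → ℕ → ℝ) (F : QF → ℝ) (x : J) : ℝ :=
  if cd Δ x then ω (fr Δ x) x.1.1 * F (fr Δ x) else 0

theorem US_eq (Δ : ℕ) (ω : QF → ℕ → ℝ) (F : QF → ℝ) (h : Summable (ust Δ ω F)) :
    US Δ ω F = ∑' x : J, ust Δ ω F x := by
  rw [h.tsum_prod]
  unfold US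
  refine tsum_congr fun p => ?_
  rw [tsum_eq_sum (s := (Finset.range (2 * p.2)).filter (fun B => 4 * p.2 ∣ B ^ 2 + Δ))]
  · refine Finset.sum_congr rfl fun B hB => ?_
    rw [Finset.mem_filter, Finset.mem_range] at hB
    unfold ust
    rw [if_pos (show cd Δ (p, B) from hB)]
    rfl
  · intro B hB
    unfold ust
    rw [if_neg]
    intro h1
    apply hB
    rw [Finset.mem_filter, Finset.mem_range]
    exact h1

/-- the majorant -/
theorem summ3 (c : ℝ) (hc : 0 < c) (k : ℕ) : Summable (fun x : J =>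
    (Real.exp (-(c * x.1.1)) * ((1 + (x.1.2 : ℝ)) ^ k * Real.exp (-(c * x.1.2)))) *
      Real.exp (-(c * x.2))) := by
  have h0 : ∀ j : ℕ, Summable (fun n : ℕ => (1 + (n : ℝ)) ^ j * Real.exp (-(c * n))) := by
    intro j
    have h := (summable_nat_add_iff 1).2 (Real.summable_pow_mul_exp_neg_nat_mul j hc)
    refine (h.mul_left (Real.exp c)).congr fun n => ?_
    have e1 : Real.exp (-c * ((n + 1 : ℕ) : ℝ)) = Real.exp (-c) * Real.exp (-(c * n)) := by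
      rw [← Real.exp_add]
      congr 1
      push_cast
      ring
    have e2 : Real.exp c * Real.exp (-c) = 1 := by rw [← Real.exp_add]; simp
    rw [e1]
    push_cast
    rw [add_comm (n : ℝ) 1]
    linear_combination ((1 + (n : ℝ)) ^ j * Real.exp (-(c * n))) * e2
  have h1 : Summable (fun n : ℕ => Real.exp (-(c * n))) := by simpa using h0 0
  have h2 := (h1.mul_of_nonneg (h0 k) (fun n => (Real.exp_pos _).le) fun n => by positivity)
  exact h2.mul_of_nonneg h1 (fun n => by positivity) fun n => (Real.exp_pos _).le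

/-- absolute convergence -/
theorem ust_summable {Δ k : ℕ} {K K' c : ℝ} {ω : QF → ℕ → ℝ} {F : QF → ℝ} (hc : 0 < c)
    (hω0 : ∀ Q ∈ FD Δ, ω Q 0 = 0)
    (hω : ∀ Q ∈ FD Δ, ∀ e : ℕ, 1 ≤ e → |ω Q e| ≤ K * Real.exp (-(c * ((e : ℝ) ^ 2 * Q.1))))
    (hF : ∀ Q ∈ FD Δ, |F Q| ≤ K' * (1 + (Q.1 : ℝ)) ^ k) : Summable (ust Δ ω F) := by
  have hc8 : 0 < c / 8 := by positivity
  refine Summable.of_norm_bounded ((summ3 (c / 8) hc8 k).mul_left (|K| * |K'|)) fun x => ?_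
  have hpos : 0 ≤ |K| * |K'| * (Real.exp (-(c / 8 * x.1.1)) * ((1 + (x.1.2 : ℝ)) ^ k *
      Real.exp (-(c / 8 * x.1.2))) * Real.exp (-(c / 8 * x.2))) := by positivity
  unfold ust
  by_cases h : cd Δ x
  · rw [if_pos h]
    have hQ := fr_mem h
    rcases Nat.eq_zero_or_pos x.1.1 with he | he
    · rw [he, hω0 _ hQ, zero_mul, norm_zero]
      rw [he] at hpos
      exact hpos
    have hQ1 : ((fr Δ x).1 : ℝ) = x.1.2 := by
      show (((x.1.2 : ℕ) : ℤ) : ℝ) = x.1.2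
      push_cast
      rfl
    have e1 := hω _ hQ x.1.1 he
    have e2 := hF _ hQ
    rw [hQ1] at e1 e2
    rw [norm_mul, Real.norm_eq_abs, Real.norm_eq_abs]
    have e1' : |ω (fr Δ x) x.1.1| ≤ |K| * Real.exp (-(c * ((x.1.1 : ℝ) ^ 2 * x.1.2))) :=
      e1.trans (mul_le_mul_of_nonneg_right (le_abs_self K) (Real.exp_pos _).le)
    have hp : 0 ≤ (1 + (x.1.2 : ℝ)) ^ k := by positivity
    have e2' : |F (fr Δ x)| ≤ |K'| * (1 + (x.1.2 : ℝ)) ^ k :=
      e2.trans (mul_le_mul_of_nonneg_right (le_abs_self K') hp)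
    have hexp : Real.exp (-(c * ((x.1.1 : ℝ) ^ 2 * x.1.2))) ≤
        Real.exp (-(c / 8 * x.1.1)) * Real.exp (-(c / 8 * x.1.2)) * Real.exp (-(c / 8 * x.2)) := by
      rw [← Real.exp_add, ← Real.exp_add]
      refine Real.exp_le_exp.2 ?_
      have a1 : (1 : ℝ) ≤ x.1.1 := by exact_mod_cast he
      have a2 : (1 : ℝ) ≤ x.1.2 := by exact_mod_cast cd_pos h
      have a3 : (x.2 : ℝ) ≤ 2 * x.1.2 := by exact_mod_cast h.1.le
      have a0 : (1 : ℝ) ≤ (x.1.1 : ℝ) ^ 2 := one_le_pow₀ a1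
      have a5 : (x.1.2 : ℝ) ≤ (x.1.1 : ℝ) ^ 2 * x.1.2 :=
        le_mul_of_one_le_left (by linarith) a0
      have a4 : (x.1.1 : ℝ) ≤ (x.1.1 : ℝ) ^ 2 * x.1.2 := by
        have b1 : (x.1.1 : ℝ) ≤ (x.1.1 : ℝ) ^ 2 := le_self_pow₀ a1 (by norm_num)
        exact b1.trans (le_mul_of_one_le_right (by positivity) a2)
      have a6 := mul_le_mul_of_nonneg_left a4 hc.le
      have a7 := mul_le_mul_of_nonneg_left a5 hc.le
      have a8 := mul_le_mul_of_nonneg_left a3 hc.le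
      have a9 : 0 ≤ c * x.1.1 := by positivity
      have a10 : 0 ≤ c * x.1.2 := by positivity
      have a11 : c * (2 * (x.1.2 : ℝ)) = 2 * (c * x.1.2) := by ring
      rw [a11] at a8
      have a12 : c / 8 * (x.1.1 : ℝ) = (c * x.1.1) / 8 := by ring
      have a13 : c / 8 * (x.1.2 : ℝ) = (c * x.1.2) / 8 := by ring
      have a14 : c / 8 * (x.2 : ℝ) = (c * x.2) / 8 := by ring
      rw [a12, a13, a14]
      linarith
    calc |ω (fr Δ x) x.1.1| * |F (fr Δ x)|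
        ≤ (|K| * Real.exp (-(c * ((x.1.1 : ℝ) ^ 2 * x.1.2)))) *
          (|K'| * (1 + (x.1.2 : ℝ)) ^ k) :=
          mul_le_mul e1' e2' (abs_nonneg _) (by positivity)
      _ ≤ (|K| * (Real.exp (-(c / 8 * x.1.1)) * Real.exp (-(c / 8 * x.1.2)) *
          Real.exp (-(c / 8 * x.2)))) * (|K'| * (1 + (x.1.2 : ℝ)) ^ k) :=
          mul_le_mul_of_nonneg_right (mul_le_mul_of_nonneg_left hexp (abs_nonneg K))
            (by positivity)
      _ = _ := by ring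
  · rw [if_neg h, norm_zero]
    exact hpos

end Pool.Agent.H56.CN
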